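import Pool.Agent.Helper600R2.Sharp.Defs

/-!
Short refutations with longer lines.
-/

set_option linter.unusedSectionVars false

namespace Pool.Agent.Helper600R2.Sharp

open Finset

variable {α : Type} [DecidableEq α]

lemma parity_form (t : ℕ) : ∀ S : Finset α, S.card ≤ 2 ^ t →
    ∃ φ : Form α, φ.leaves ≤ 4 ^ t ∧ ∀ x, φ.eval x = true ↔
      (S.filter (fun i => x i = true)).card % 2 = 1 := by
  induction t with
  | zero =>
    intro S hS
    rcases S.eq_empty_or_nonempty with rfl | ⟨a, ha⟩
    · exact ⟨.fls, by simp [Form.leaves], fun x => by simp [Form.eval]⟩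
    · have h1 : S = {a} := by
        rw [eq_singleton_iff_unique_mem]
        refine ⟨ha, fun b hb => ?_⟩
        exact Finset.card_le_one.mp (by simpa using hS) b hb a ha
      subst h1
      refine ⟨.var a, by simp [Form.leaves], fun x => ?_⟩
      simp only [Form.eval, filter_singleton]
      by_cases h : x a = true <;> simp [h]
  | succ t ih =>
    intro S hS
    obtain ⟨S1, hS1, hc1⟩ := Finset.exists_subset_card_eq (s := S) (n := min S.card (2 ^ t))
      (min_le_left _ _)
    have hc2 : (S \ S1).card ≤ 2 ^ t := by
      rw [card_sdiff_of_subset hS1, hc1]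
      rw [pow_succ] at hS
      omega
    obtain ⟨φ1, h1, e1⟩ := ih S1 (by rw [hc1]; exact min_le_right _ _)
    obtain ⟨φ2, h2, e2⟩ := ih (S \ S1) hc2
    refine ⟨.or (.and φ1 (.neg φ2)) (.and (.neg φ1) φ2), ?_, fun x => ?_⟩
    · simp only [Form.leaves]
      rw [pow_succ]
      omega
    · have hsplit : (S.filter (fun i => x i = true)).card =
          (S1.filter (fun i => x i = true)).card + ((S \ S1).filter (fun i => x i = true)).card := by
        rw [← card_union_of_disjoint, ← filter_union, union_sdiff_of_subset hS1]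
        exact disjoint_filter_filter disjoint_sdiff
      have e1x := e1 x
      have e2x := e2 x
      rw [hsplit]
      simp only [Form.eval]
      cases hφ1 : φ1.eval x <;> cases hφ2 : φ2.eval x <;> rw [hφ1] at e1x <;> rw [hφ2] at e2x <;>
        simp only [Bool.false_eq_true, false_iff, true_iff] at e1x e2x <;>
        simp <;> omega

lemma exists_pow_near (m : ℕ) (hm : 1 ≤ m) : ∃ t : ℕ, m ≤ 2 ^ t ∧ 2 ^ t ≤ 2 * m := by
  refine ⟨Nat.clog 2 m, Nat.le_pow_clog (by norm_num) m, ?_⟩
  rcases Nat.lt_or_ge 1 m with h | h
  · have h1 := Nat.pow_pred_clog_lt_self (b := 2) (by norm_num) h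
    have h2 : 0 < Nat.clog 2 m := Nat.clog_pos (by norm_num) (by omega)
    have h3 : 2 ^ Nat.clog 2 m = 2 * 2 ^ (Nat.clog 2 m).pred := by
      rw [← pow_succ']
      congr 1
      simp only [Nat.pred_eq_sub_one]
      omega
    omega
  · have : m = 1 := by omega
    subst this
    simp

lemma constraint_form (w : ℕ) (hw : 1 ≤ w) (S : Finset α) (hS : S.card ≤ w) (b : Bool) :
    ∃ φ : Form α, φ.leaves ≤ 4 * w ^ 2 ∧ ∀ x, φ.eval x = true ↔ XorHolds S b x := by
  obtain ⟨t, h1, h2⟩ := exists_pow_near w hw
  obtain ⟨φ, h3, h4⟩ := parity_form t S (hS.trans h1)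
  have h5 : (4 : ℕ) ^ t ≤ 4 * w ^ 2 := by
    calc (4 : ℕ) ^ t = 2 ^ t * 2 ^ t := by rw [← mul_pow]; norm_num
      _ ≤ (2 * w) * (2 * w) := Nat.mul_le_mul h2 h2
      _ = 4 * w ^ 2 := by ring
  cases b with
  | true => exact ⟨φ, h3.trans h5, fun x => by rw [h4]; simp [XorHolds]⟩
  | false =>
    refine ⟨.neg φ, h3.trans h5, fun x => ?_⟩
    have := h4 x
    simp only [Form.eval, XorHolds, Bool.false_eq_true, iff_false, ← this]
    cases φ.eval x <;> simp

lemma conj_form {n w : ℕ} (hw : 1 ≤ w) (S : Fin n → Finset α) (b : Fin n → Bool)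
    (hS : ∀ v, (S v).card ≤ w) : ∀ i : ℕ, ∃ φ : Form α, φ.leaves ≤ i * (4 * w ^ 2) ∧
      ∀ x, φ.eval x = true ↔ ∀ v : Fin n, v.val < i → XorHolds (S v) (b v) x := by
  intro i
  induction i with
  | zero => exact ⟨.tru, by simp [Form.leaves], fun x => by simp [Form.eval]⟩
  | succ i ih =>
    obtain ⟨φ, h1, h2⟩ := ih
    by_cases hi : i < n
    · obtain ⟨χ, h3, h4⟩ := constraint_form w hw (S ⟨i, hi⟩) (hS _) (b ⟨i, hi⟩)
      refine ⟨.and φ χ, ?_, fun x => ?_⟩
      · simp only [Form.leaves]
        calc φ.leaves + χ.leaves ≤ i * (4 * w ^ 2) + 4 * w ^ 2 := Nat.add_le_add h1 h3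
          _ = (i + 1) * (4 * w ^ 2) := by ring
      · simp only [Form.eval, Bool.and_eq_true, h2, h4]
        constructor
        · rintro ⟨g1, g2⟩ v hv
          rcases Nat.lt_succ_iff_lt_or_eq.mp hv with h | h
          · exact g1 v h
          · have : v = ⟨i, hi⟩ := Fin.ext h
            rw [this]; exact g2
        · intro g
          exact ⟨fun v hv => g v (by omega), g ⟨i, hi⟩ (by simp)⟩
    · refine ⟨φ, h1.trans (Nat.mul_le_mul_right _ (Nat.le_succ i)), fun x => ?_⟩
      rw [h2]
      constructor
      · intro g v _; exact g v (by omega)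
      · intro g v _; exact g v (by omega)

/-- the line given by a single formula -/
def single {r : ℕ} (hr : 0 < r) (φ : Form α) : Line r α where
  comb := fun y => y ⟨0, hr⟩
  part := fun _ => φ

lemma single_eval {r : ℕ} (hr : 0 < r) (φ : Form α) (x : α → Bool) :
    (single hr φ).eval x = φ.eval x := rfl

/-- every unsatisfiable system has a refutation with `2 n + 1` lines that are formulas with at
most `4 w² n` occurrences of variables -/
theorem upper {n w r k : ℕ} (hr : 0 < r) (hk : 2 ≤ k) (hw : 1 ≤ w) (S : Fin n → Finset α)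
    (b : Fin n → Bool) (hS : ∀ v, (S v).card ≤ w)
    (hunsat : ¬ ∃ x : α → Bool, ∀ v, XorHolds (S v) (b v) x) (hn : 1 ≤ n) :
    ∃ l : Fin (2 * n) → Line r α, IsRefutation S b k l ∧
      ∀ i, (l i).SizeLe (4 * w ^ 2 * n : ℕ) := by
  classical
  choose C hC1 hC2 using fun v => constraint_form w hw (S v) (hS v) (b v)
  choose D hD1 hD2 using conj_form hw S b hS
  -- line `2 i` is the constraint `i`, line `2 i + 1` is the conjunction of the constraints `≤ i`
  let F : Fin (2 * n) → Form α := fun j =>
    if j.val % 2 = 0 then C ⟨j.val / 2, by have := j.2; omega⟩ else D (j.val / 2 + 1)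
  refine ⟨fun j => single hr (F j), ⟨?_, ?_⟩, ?_⟩
  · refine ⟨⟨2 * n - 1, by omega⟩, fun x => ?_⟩
    rw [single_eval]
    have h1 : F ⟨2 * n - 1, by omega⟩ = D n := by
      have e1 : ¬ ((2 * n - 1) % 2 = 0) := by omega
      have e2 : (2 * n - 1) / 2 + 1 = n := by omega
      simp only [F, e1, if_false, e2]
    rw [h1]
    by_contra h
    rw [Bool.not_eq_false, hD2] at h
    exact hunsat ⟨x, fun v => h v v.2⟩
  · intro j
    by_cases hj : j.val % 2 = 0
    · left
      refine ⟨⟨j.val / 2, by have := j.2; omega⟩, fun x hx => ?_⟩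
      rw [single_eval]
      simp only [F, hj, if_true]
      exact (hC2 _ x).mpr hx
    · right
      by_cases h1 : j.val = 1
      · -- the first conjunction
        refine ⟨{⟨0, by have := j.2; omega⟩}, by simp; omega, ?_, ?_⟩
        · intro i hi
          rw [mem_singleton] at hi
          subst hi
          rw [Fin.lt_def]
          show 0 < j.val
          omega
        · intro x hx
          have h2 := hx _ (mem_singleton_self _)
          rw [single_eval] at h2 ⊢
          have e1 : F ⟨0, by have := j.2; omega⟩ = C ⟨0, by omega⟩ := by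
            simp [F]
          have e2 : F j = D 1 := by
            have e3 : F j = D (j.val / 2 + 1) := by
              simp only [F, hj, if_false]
            rw [e3, h1]
          rw [e1, hC2] at h2
          rw [e2, hD2]
          intro v hv
          have : v = ⟨0, by omega⟩ := Fin.ext (by show v.val = 0; omega)
          rw [this]; exact h2
      · have hj2 := j.2
        refine ⟨{⟨j.val - 1, by omega⟩, ⟨j.val - 2, by omega⟩}, card_le_two.trans hk, ?_, ?_⟩
        · intro i hi
          rw [mem_insert, mem_singleton] at hi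
          rw [Fin.lt_def]
          rcases hi with rfl | rfl
          · show j.val - 1 < j.val
            omega
          · show j.val - 2 < j.val
            omega
        · intro x hx
          have h2 := hx ⟨j.val - 1, by omega⟩ (by simp)
          have h3 := hx ⟨j.val - 2, by omega⟩ (by simp)
          rw [single_eval] at h2 h3 ⊢
          have e1 : F ⟨j.val - 1, by omega⟩ = C ⟨j.val / 2, by omega⟩ := by
            have g1 : (j.val - 1) % 2 = 0 := by omega
            have g2 : (j.val - 1) / 2 = j.val / 2 := by omega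
            simp only [F, g1, if_true, g2]
          have e2 : F ⟨j.val - 2, by omega⟩ = D (j.val / 2) := by
            have g1 : ¬ (j.val - 2) % 2 = 0 := by omega
            have g2 : (j.val - 2) / 2 + 1 = j.val / 2 := by omega
            simp only [F, g1, if_false, g2]
          have e3 : F j = D (j.val / 2 + 1) := by
            simp only [F, hj, if_false]
          rw [e1, hC2] at h2
          rw [e2, hD2] at h3
          rw [e3, hD2]
          intro v hv
          rcases Nat.lt_succ_iff_lt_or_eq.mp hv with h | h
          · exact h3 v h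
          · have : v = ⟨j.val / 2, by omega⟩ := Fin.ext h
            rw [this]; exact h2
  · intro j i
    have : (F j).leaves ≤ 4 * w ^ 2 * n := by
      have hj2 := j.2
      simp only [F]
      split_ifs with h
      · refine (hC1 _).trans ?_
        exact Nat.le_mul_of_pos_right _ hn
      · refine (hD1 _).trans ?_
        calc (j.val / 2 + 1) * (4 * w ^ 2) ≤ n * (4 * w ^ 2) :=
              Nat.mul_le_mul_right _ (by omega)
          _ = 4 * w ^ 2 * n := by ring
    show (((F j).leaves : ℕ) : ℝ) ≤ _
    exact_mod_cast this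

end Pool.Agent.Helper600R2.Sharp
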