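import Pool.Agent.Helper600R2.Sharp.Restr
import Pool.Agent.Helper600R2.Sharp.Upper
import Pool.Agent.Helper600R2.Lift

/-!
Translation to degree.
-/

set_option linter.unusedSectionVars false

namespace Pool.Agent.Helper600R2.Sharp

open Finset Pool.Agent.Helper600R2

/-- translation to the other type of formulas -/
def tr {α β : Type} (g : α → β) : Form α → Pool.Agent.H564R2.QF.Fml β
  | .tru => .const true
  | .fls => .const false
  | .var a => .var (g a)
  | .neg φ => .neg (tr g φ)
  | .and φ ψ => .and (tr g φ) (tr g ψ)
  | .or φ ψ => .or (tr g φ) (tr g ψ)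
  | .imp φ ψ => .or (.neg (tr g φ)) (tr g ψ)

lemma tr_size {α β : Type} (g : α → β) (φ : Form α) : (tr g φ).size = φ.leaves := by
  induction φ with
  | tru => rfl
  | fls => rfl
  | var a => rfl
  | neg φ ih => simpa [tr, Form.leaves, Pool.Agent.H564R2.QF.Fml.size] using ih
  | and φ ψ ih ih' => simp [tr, Form.leaves, Pool.Agent.H564R2.QF.Fml.size, ih, ih']
  | or φ ψ ih ih' => simp [tr, Form.leaves, Pool.Agent.H564R2.QF.Fml.size, ih, ih']
  | imp φ ψ ih ih' => simp [tr, Form.leaves, Pool.Agent.H564R2.QF.Fml.size, ih, ih']

lemma tr_eval {α β : Type} (g : α → β) (φ : Form α) (x : β → Bool) :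
    (tr g φ).eval x = φ.eval (fun a => x (g a)) := by
  induction φ with
  | tru => rfl
  | fls => rfl
  | var a => rfl
  | neg φ ih => simp [tr, Form.eval, Pool.Agent.H564R2.QF.Fml.eval, ih]
  | and φ ψ ih ih' => simp [tr, Form.eval, Pool.Agent.H564R2.QF.Fml.eval, ih, ih']
  | or φ ψ ih ih' => simp [tr, Form.eval, Pool.Agent.H564R2.QF.Fml.eval, ih, ih']
  | imp φ ψ ih ih' => simp [tr, Form.eval, Pool.Agent.H564R2.QF.Fml.eval, ih, ih']

lemma lowDeg_le_J {E V : Type} [DecidableEq V] (g : E → V) (d : ℕ)
    (f : (E → Bool) → ℝ) (hf : f ∈ Pool.Agent.H564R2.QF.LowDeg E d) :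
    (fun y : V → Bool => f (fun e => y (g e))) ∈ J (ι := V) (α := Bool) ℝ d := by
  classical
  unfold Pool.Agent.H564R2.QF.LowDeg at hf
  induction hf using Submodule.span_induction with
  | mem f hf =>
    obtain ⟨S, hS, rfl⟩ := hf
    refine junta_mem (S.image g) (card_image_le.trans hS) ?_
    intro x y hxy
    simp only [Pool.Agent.H564R2.QF.chi]
    refine Finset.prod_congr rfl (fun v hv => ?_)
    have h := hxy (g v) (by simpa using ⟨v, hv, rfl⟩)
    simp only [h]
  | zero => exact Submodule.zero_mem _
  | add a b _ _ ha hb => exact Submodule.add_mem _ ha hb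
  | smul c a _ ha => exact Submodule.smul_mem _ _ ha

/-- Boolean functions of `r` functions of degree `d` have degree `r d` -/
lemma comb_J {V : Type} {r : ℕ} (F : (Fin r → Bool) → Bool) (f : Fin r → (V → Bool) → Bool)
    (d : ℕ) (hf : ∀ j, toK ℝ (f j) ∈ J (ι := V) (α := Bool) ℝ d) :
    toK ℝ (fun x => F (fun j => f j x)) ∈ J (ι := V) (α := Bool) ℝ (r * d) := by
  classical
  have h : toK ℝ (fun x => F (fun j => f j x)) = ∑ b : Fin r → Bool,
      (if F b = true then (1 : ℝ) else 0) •
        ∏ j, (if b j = true then toK ℝ (f j) else 1 - toK ℝ (f j)) := by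
    funext x
    rw [Finset.sum_apply, Finset.sum_eq_single (fun j => f j x)]
    · rw [Pi.smul_apply, Finset.prod_apply, Finset.prod_eq_one]
      · simp only [smul_eq_mul, mul_one, toK]
      · intro j _
        by_cases h : f j x = true
        · simp [h, toK]
        · simp [h, toK]
    · intro b _ hb
      rw [Pi.smul_apply, Finset.prod_apply]
      have : ∃ j, b j ≠ f j x := by
        by_contra hcon
        push Not at hcon
        exact hb (funext hcon)
      obtain ⟨j, hj⟩ := this
      rw [Finset.prod_eq_zero (mem_univ j), smul_zero]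
      cases h1 : b j <;> cases h2 : f j x
      · exact absurd (h1.trans h2.symm) hj
      · simp [toK, h2]
      · simp [toK, h2]
      · exact absurd (h1.trans h2.symm) hj
    · intro h; exact absurd (mem_univ _) h
  rw [h]
  refine Submodule.sum_mem _ (fun b _ => Submodule.smul_mem _ _ ?_)
  have h1 := J_prod (K := ℝ) (univ : Finset (Fin r))
    (fun j => if b j = true then toK ℝ (f j) else 1 - toK ℝ (f j)) (fun _ => d) (by
      intro j _
      by_cases hb : b j = true
      · simp only [hb, if_true]
        exact hf j
      · simp only [hb]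
        exact Submodule.sub_mem _ (J_one _) (hf j))
  simpa using h1

/-- variables of the lifted system -/
abbrev VL (n m : ℕ) : Type := (Fin n × Bool) × Fin 1 × Fin m

lemma card_VL (n m : ℕ) : Fintype.card (VL n m) = 2 * n * m := by
  simp only [VL, Fintype.card_prod, Fintype.card_fin, Fintype.card_bool]; ring

/-- the edges at a vertex -/
noncomputable def star {n : ℕ} (π : Equiv.Perm (Fin n)) (v : Fin n) : Finset (Fin n × Bool) :=
  nsupp (q := 2) (dd (ghd π) gtl (Pi.single v (1 : ZMod 2)))

/-- the variables of the constraint at `v` -/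
noncomputable def SV {n m : ℕ} (π : Equiv.Perm (Fin n)) (v : Fin n) : Finset (VL n m) :=
  (star π v) ×ˢ (univ : Finset (Fin 1 × Fin m))

lemma zmod2 (a : ZMod 2) (h : a ≠ 0) : a = 1 := by
  revert a; decide

lemma flow_eq {n m : ℕ} (π : Equiv.Perm (Fin n)) (v : Fin n) (x : VL n m → Bool) :
    flow (ghd π) gtl v (zsum 2 x) = (((SV π v).filter (fun a => x a = true)).card : ZMod 2) := by
  classical
  have h1 : (((SV π v).filter (fun a => x a = true)).card : ZMod 2) =
      ∑ a ∈ SV π v, if x a = true then (1 : ZMod 2) else 0 := by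
    rw [Finset.sum_boole]
  rw [h1, SV, Finset.sum_product, flow]
  rw [← Finset.sum_subset (Finset.subset_univ (star π v))]
  · refine Finset.sum_congr rfl (fun e he => ?_)
    have h2 : dd (ghd π) gtl (Pi.single v (1 : ZMod 2)) e = 1 := by
      apply zmod2
      simpa [star, nsupp] using he
    rw [h2, one_mul, zsum, Fintype.sum_prod_type]
  · intro e _ he
    have h2 : dd (ghd π) gtl (Pi.single v (1 : ZMod 2)) e = 0 := by
      by_contra h
      exact he (by simpa [star, nsupp] using h)
    rw [h2, zero_mul]

lemma flow_sum {n : ℕ} (π : Equiv.Perm (Fin n)) (z : Fin n × Bool → ZMod 2) :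
    ∑ v, flow (ghd π) gtl v z = 0 := by
  simp only [flow]
  rw [Finset.sum_comm]
  apply Finset.sum_eq_zero
  intro e _
  rw [← Finset.sum_mul]
  have : ∑ v, dd (ghd π) gtl (Pi.single v (1 : ZMod 2)) e = 0 := by
    simp only [dd, Finset.sum_sub_distrib, Pi.single_apply]
    simp
  rw [this, zero_mul]

/-- the threshold theorem -/
theorem threshold (k : ℕ) : ∃ c : ℝ, 0 < c ∧ ∃ n₀ : ℕ, ∀ n m r : ℕ, n₀ ≤ n → 1 ≤ m → 1 ≤ r →
    ∃ (S : Fin n → Finset (Fin (2 * n * m))) (b : Fin n → Bool),
      (∀ v, (S v).card ≤ 4 * m) ∧ (¬ ∃ x, ∀ v, XorHolds (S v) (b v) x) ∧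
      (∀ (T : ℕ) (l : Fin T → Line r (Fin (2 * n * m))), IsRefutation S b k l →
        (∀ i, (l i).SizeLe (c * m * (2 * n * m) / r)) → (2 : ℝ) ^ (c * n / r) ≤ r * T) ∧
      (2 ≤ k → ∃ l : Fin (2 * n) → Line r (Fin (2 * n * m)), IsRefutation S b k l ∧
        ∀ i, (l i).SizeLe (32 * m * (2 * n * m))) := by
  classical
  obtain ⟨cr, hcr0, hrestr⟩ := restr
  set A : ℕ := k + 1 with hA
  have hAr : (0 : ℝ) < A := by rw [hA]; push_cast; positivity
  set c : ℝ := min (cr / (960 * A)) (1 / (480 * A)) with hc
  have hc0 : 0 < c := lt_min (by positivity) (by positivity)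
  refine ⟨c, hc0, 960 * A + 960, ?_⟩
  intro n m r hn hm hr
  have hn25 : 25 ≤ n := by omega
  have hnr : (0 : ℝ) < n := by
    have : 0 < n := by omega
    exact_mod_cast this
  have hmr : (1 : ℝ) ≤ m := by exact_mod_cast hm
  have hrr : (1 : ℝ) ≤ r := by exact_mod_cast hr
  obtain ⟨π, hπ⟩ := exists_expander hn25
  let e : VL n m ≃ Fin (2 * n * m) := Fintype.equivFinOfCardEq (card_VL n m)
  let S : Fin n → Finset (Fin (2 * n * m)) := fun v => (SV π v).map e.toEmbedding
  let b : Fin n → Bool := fun v => decide (v.val = 0)
  let b' : Fin n → ZMod 2 := fun v => if v.val = 0 then 1 else 0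
  have hxor : ∀ (v : Fin n) (x : Fin (2 * n * m) → Bool),
      XorHolds (S v) (b v) x ↔ LC π b' v (fun a => x (e a)) := by
    intro v x
    have h1 : ((S v).filter (fun i => x i = true)).card =
        ((SV π v).filter (fun a => x (e a) = true)).card := by
      simp only [S, Finset.filter_map, Finset.card_map]
      rfl
    simp only [XorHolds, LC, flow_eq, h1, b, b']
    rw [← Nat.odd_iff, ← ZMod.natCast_eq_one_iff_odd]
    by_cases hv : v.val = 0
    · simp [hv]
    · simp only [hv, decide_false, if_false, Bool.false_eq_true, iff_false]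
      constructor
      · intro h
        by_contra h0
        exact h (zmod2 _ h0)
      · intro h h1
        rw [h] at h1
        exact zero_ne_one h1
  have hScard : ∀ v, (S v).card ≤ 4 * m := by
    intro v
    have h1 : (SV (m := m) π v).card ≤ 4 * m := by
      rw [SV, card_product]
      have h2 : (star π v).card ≤ 4 := graph_deg (q := 2) π v 1
      have h3 : (univ : Finset (Fin 1 × Fin m)).card = m := by simp
      rw [h3]
      exact Nat.mul_le_mul_right m h2
    simpa [S] using h1
  have hunsat : ¬ ∃ x, ∀ v, XorHolds (S v) (b v) x := by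
    rintro ⟨x, hx⟩
    have h1 : ∀ v, flow (ghd π) gtl v (zsum 2 (fun a : VL n m => x (e a))) = b' v := fun v =>
      (hxor v x).mp (hx v)
    have h2 := flow_sum π (zsum 2 (fun a : VL n m => x (e a)))
    simp only [h1, b'] at h2
    have h3 : ∑ v : Fin n, (if v.val = 0 then (1 : ZMod 2) else 0) = 1 := by
      rw [Finset.sum_eq_single (⟨0, by omega⟩ : Fin n)]
      · simp
      · intro v _ hv
        rw [if_neg]
        intro h
        exact hv (Fin.ext h)
      · intro h; exact absurd (mem_univ _) h
    rw [h3] at h2
    exact one_ne_zero h2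
  refine ⟨S, b, hScard, hunsat, ?_, ?_⟩
  · intro T l href hsize
    obtain ⟨⟨i₀, hi₀⟩, hsound⟩ := href
    set d : ℕ := n / (240 * A * r) with hd
    have hApos : 0 < A := by omega
    have hdn : 240 * A * r * d ≤ n := Nat.mul_div_le n (240 * A * r)
    have hdn2 : n < 240 * A * r * (d + 1) := by
      rw [hd]; exact Nat.lt_mul_div_succ n (by positivity)
    have hT1 : 1 ≤ T := by
      have := i₀.2; omega
    have hT1r : (1 : ℝ) ≤ T := by exact_mod_cast hT1
    by_cases hd1 : d = 0
    · -- too many formulas in a line
      rw [hd1] at hdn2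
      have h1 : (n : ℝ) < 240 * A * r := by
        have : n < 240 * A * r := by simpa using hdn2
        exact_mod_cast this
      have h2 : c * n / r ≤ 1 := by
        rw [div_le_one (by linarith)]
        have h3 : c ≤ 1 / (480 * A) := min_le_right _ _
        calc c * n ≤ 1 / (480 * A) * (240 * A * r) :=
              mul_le_mul h3 h1.le hnr.le (by positivity)
          _ = r / 2 := by field_simp; norm_num
          _ ≤ r := by linarith
      have h3 : (2 : ℝ) ^ (c * n / r) ≤ 2 := by
        calc (2 : ℝ) ^ (c * n / r) ≤ 2 ^ (1 : ℝ) :=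
              Real.rpow_le_rpow_of_exponent_le (by norm_num) h2
          _ = 2 := Real.rpow_one 2
      have h4 : (2 : ℝ) ≤ r := by
        have : 2 ≤ r := by
          by_contra h
          have hr1 : r = 1 := by omega
          have h5 : n < 240 * A := by simpa [hr1] using hdn2
          have h6 : n ≥ 960 * k + 960 := by omega
          rw [hA] at h5
          omega
        exact_mod_cast this
      nlinarith
    · by_contra hcon
      push Not at hcon
      have hd1' : 1 ≤ d := Nat.one_le_iff_ne_zero.mpr hd1
      have hdr : (n : ℝ) / (480 * A * r) ≤ d := by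
        have h1 : (n : ℝ) < 240 * A * r * (d + 1) := by exact_mod_cast hdn2
        have h2 : (1 : ℝ) ≤ d := by exact_mod_cast hd1'
        rw [div_le_iff₀ (by positivity)]
        nlinarith [mul_pos hAr (lt_of_lt_of_le one_pos hrr)]
      have hcd : c * n / r ≤ d := by
        have h3 : c ≤ 1 / (480 * A) := min_le_right _ _
        calc c * n / r ≤ 1 / (480 * A) * n / r := by
              apply div_le_div_of_nonneg_right _ (by linarith)
              exact mul_le_mul_of_nonneg_right h3 hnr.le
          _ = n / (480 * A * r) := by field_simp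
          _ ≤ d := hdr
      -- the restriction
      let φ : Fin (T * r) → Pool.Agent.H564R2.QF.Fml ((Fin n × Bool) × Fin m) := fun p =>
        tr (fun a => ((e.symm a).1, (e.symm a).2.2))
          ((l (finProdFinEquiv.symm p).1).part (finProdFinEquiv.symm p).2)
      obtain ⟨s, x, hsx⟩ := hrestr (Fin n × Bool) m d (T * r) φ hm hd1' (by
          intro p
          simp only [φ, tr_size]
          refine (hsize _ _).trans ?_
          have h3 : c ≤ cr / (960 * A) := min_le_left _ _
          have h4 : c * m * (2 * n * m) / r ≤ cr / (960 * A) * m * (2 * n * m) / r := by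
            apply div_le_div_of_nonneg_right _ (by linarith)
            apply mul_le_mul_of_nonneg_right _ (by positivity)
            exact mul_le_mul_of_nonneg_right h3 (by linarith)
          refine h4.trans ?_
          have h5 : cr / (960 * A) * m * (2 * n * m) / r = cr * (n / (480 * A * r)) * m ^ 2 := by
            field_simp; ring
          rw [h5]
          apply mul_le_mul_of_nonneg_right _ (by positivity)
          exact mul_le_mul_of_nonneg_left hdr hcr0.le)
        (by
          push_cast
          have h1 : (T : ℝ) * r < 2 ^ (c * n / r) := by rw [mul_comm]; exact hcon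
          refine h1.trans_le ?_
          rw [← Real.rpow_natCast 2 d]
          exact Real.rpow_le_rpow_of_exponent_le (by norm_num) hcd)
      let ρ : VL n m → Bool × Bool := fun v => (decide (v.2.2 = s v.1), x (v.1, v.2.2))
      have hJ : ∀ i j, toK ℝ (fun y : VL n m → Bool =>
          ((l i).part j).eval (fun a => merge ρ y (e.symm a))) ∈ J ℝ d := by
        intro i j
        have h1 := lowDeg_le_J (V := VL n m) (fun ed => (ed, (0 : Fin 1), s ed)) d _
          (hsx (finProdFinEquiv (i, j)))
        have h2 : (fun y : VL n m → Bool => (fun y' : Fin n × Bool → Bool =>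
            if (φ (finProdFinEquiv (i, j))).eval (fun v => if v.2 = s v.1 then y' v.1 else x v) =
              true then (1 : ℝ) else 0) (fun ed => y (ed, (0 : Fin 1), s ed))) =
            toK ℝ (fun y : VL n m → Bool =>
              ((l i).part j).eval (fun a => merge ρ y (e.symm a))) := by
          funext y
          simp only [toK, φ, Equiv.symm_apply_apply, tr_eval]
          have h3 : (fun a => if (e.symm a).2.2 = s (e.symm a).1 then
              y ((e.symm a).1, (0 : Fin 1), s (e.symm a).1) else
                x ((e.symm a).1, (e.symm a).2.2)) = fun a => merge ρ y (e.symm a) := by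
            funext a
            rcases he : e.symm a with ⟨ed, t, j'⟩
            have ht : t = 0 := Subsingleton.elim _ _
            subst ht
            by_cases hj : j' = s ed
            · subst hj; simp [merge, ρ]
            · simp [merge, ρ, hj]
          rw [h3]
        rw [h2] at h1
        exact h1
      have hψ : ((-1 : ℝ)) ^ 2 = 1 := by norm_num
      have hprim : IsPrimitiveRoot (-1 : ℝ) 2 := IsPrimitiveRoot.neg_one 0 (by norm_num)
      have hprim' := AddChar.zmodChar_primitive_of_primitive_root 2 hprim
      obtain ⟨y, hy⟩ := lifted_no_low_degree π _ hprim' (by norm_num) (by norm_num : 1 + 1 = 2)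
        (by omega) hπ b' (r * d) k (by
          have h1 : 240 * (A * (r * d)) ≤ n := by
            calc 240 * (A * (r * d)) = 240 * A * r * d := by ring
              _ ≤ n := hdn
          rw [hA] at h1
          omega)
        (fun i (x : VL n m → Bool) => (l i).eval (fun a => x (e.symm a))) (by
          intro i
          rcases hsound i with ⟨v, hv⟩ | ⟨P, hP1, hP2, hP3⟩
          · left
            refine ⟨v, fun x hx => hv _ ?_⟩
            rw [hxor]
            simpa using hx
          · right
            exact ⟨P, hP1, hP2, fun x hx => hP3 _ hx⟩) ρ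
        (fun ed t => ⟨s ed, by simp [ρ]⟩)
        (fun i => comb_J (l i).comb _ d (fun j => hJ i j)) i₀
      have h1 := hi₀ (fun a => y (e.symm a))
      have h2 : (l i₀).eval (fun a => y (e.symm a)) = true := hy
      rw [h1] at h2
      exact Bool.false_ne_true h2
  · intro hk
    obtain ⟨l, hl, hls⟩ := upper (r := r) (by omega) hk (w := 4 * m) (by omega) S b hScard hunsat
      (by omega)
    refine ⟨l, hl, fun i j => (hls i j).trans (le_of_eq ?_)⟩
    push_cast
    ring

end Pool.Agent.Helper600R2.Sharp
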