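import Pool.Agent.H564R2.QF.Defs

/-!
# Fourier coefficients of real functions on the cube
-/

namespace Pool.Agent.Helper600R2.Sharp

open Pool.Agent.H564R2.QF Finset

/-- the sign of a bit -/
noncomputable def sg (b : Bool) : ℝ := if b = true then -1 else 1

lemma sg_sq (b : Bool) : sg b * sg b = 1 := by cases b <;> simp [sg]

variable {V : Type}

lemma chi_eq (S : Finset V) (x : V → Bool) : chi S x = ∏ v ∈ S, sg (x v) := rfl

lemma chi_empty (x : V → Bool) : chi ∅ x = 1 := by simp [chi]

variable [Fintype V] [DecidableEq V]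

lemma sum_prod_bool (w : V → Bool → ℝ) :
    ∑ x : V → Bool, ∏ v, w v (x v) = ∏ v, (w v true + w v false) := by
  have h := Finset.prod_univ_sum (fun _ : V => (univ : Finset Bool)) (fun v b => w v b)
  rw [Fintype.piFinset_univ] at h
  rw [← h]
  refine Finset.prod_congr rfl (fun v _ => ?_)
  rw [Fintype.sum_bool]

lemma sum_chi (S : Finset V) :
    ∑ x : V → Bool, chi S x = if S = ∅ then (2 : ℝ) ^ Fintype.card V else 0 := by
  have h1 : ∀ x : V → Bool, chi S x = ∏ v, (if v ∈ S then sg (x v) else 1) := by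
    intro x
    rw [chi_eq, Finset.prod_ite_mem, Finset.univ_inter]
  simp only [h1]
  rw [sum_prod_bool (fun v b => if v ∈ S then sg b else 1)]
  split_ifs with h
  · subst h
    simp only [notMem_empty, if_false]
    rw [Finset.prod_const, Finset.card_univ]
    norm_num
  · obtain ⟨v, hv⟩ := Finset.nonempty_iff_ne_empty.mpr h
    apply Finset.prod_eq_zero (mem_univ v)
    simp [hv, sg]

lemma orth (S T : Finset V) :
    ∑ x : V → Bool, chi S x * chi T x = if S = T then (2 : ℝ) ^ Fintype.card V else 0 := by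
  have h1 : ∀ x : V → Bool, chi S x * chi T x = chi (symmDiff S T) x := by
    intro x
    have := congrFun (chi_mul S T) x
    simpa using this
  simp only [h1]
  rw [sum_chi]
  by_cases h : S = T
  · subst h; simp
  · have h2 : symmDiff S T ≠ ∅ := by
      intro h3
      exact h (symmDiff_eq_bot.mp h3)
    rw [if_neg h, if_neg h2]

/-- Fourier coefficient -/
noncomputable def coef (g : (V → Bool) → ℝ) (A : Finset V) : ℝ :=
  (∑ y, g y * chi A y) / 2 ^ Fintype.card V

omit [DecidableEq V] in
lemma two_pow_pos' : (0 : ℝ) < 2 ^ Fintype.card V := by positivity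

lemma coef_add (f g : (V → Bool) → ℝ) (A : Finset V) : coef (f + g) A = coef f A + coef g A := by
  simp only [coef, Pi.add_apply, add_mul, Finset.sum_add_distrib, add_div]

lemma coef_smul (c : ℝ) (g : (V → Bool) → ℝ) (A : Finset V) : coef (c • g) A = c * coef g A := by
  simp only [coef, Pi.smul_apply, smul_eq_mul, mul_assoc, ← Finset.mul_sum, mul_div_assoc]

lemma coef_zero (A : Finset V) : coef (0 : (V → Bool) → ℝ) A = 0 := by simp [coef]

lemma coef_sub (f g : (V → Bool) → ℝ) (A : Finset V) : coef (f - g) A = coef f A - coef g A := by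
  simp only [coef, Pi.sub_apply, sub_mul, Finset.sum_sub_distrib, sub_div]

lemma coef_chi (S A : Finset V) : coef (chi S) A = if S = A then 1 else 0 := by
  rw [coef, orth]
  split_ifs
  · exact div_self two_pow_pos'.ne'
  · simp

lemma sum_chi_chi (y z : V → Bool) :
    ∑ S : Finset V, chi S y * chi S z = if y = z then (2 : ℝ) ^ Fintype.card V else 0 := by
  have h1 : ∀ S : Finset V, chi S y * chi S z = ∏ v ∈ S, (sg (y v) * sg (z v)) := by
    intro S; rw [chi_eq, chi_eq, Finset.prod_mul_distrib]
  simp only [h1]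
  have h2 := Finset.prod_one_add (s := (univ : Finset V)) (f := fun v => sg (y v) * sg (z v))
  rw [Finset.powerset_univ] at h2
  rw [← h2]
  split_ifs with h
  · subst h
    simp only [sg_sq]
    rw [Finset.prod_const, Finset.card_univ]; norm_num
  · obtain ⟨v, hv⟩ := Function.ne_iff.mp h
    apply Finset.prod_eq_zero (mem_univ v)
    cases hy : y v <;> cases hz : z v <;> simp_all [sg]

lemma inversion (g : (V → Bool) → ℝ) (y : V → Bool) : g y = ∑ S : Finset V, coef g S * chi S y := by
  have h : ∑ S : Finset V, coef g S * chi S y =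
      (∑ z, g z * ∑ S : Finset V, chi S z * chi S y) / 2 ^ Fintype.card V := by
    simp only [coef, Finset.mul_sum, div_mul_eq_mul_div, Finset.sum_mul, ← Finset.sum_div]
    rw [Finset.sum_comm]
    congr 1
    refine Finset.sum_congr rfl (fun z _ => Finset.sum_congr rfl (fun S _ => ?_))
    ring
  rw [h]
  simp only [sum_chi_chi]
  simp only [mul_ite, mul_zero, Finset.sum_ite_eq', mem_univ, if_true]
  field_simp

lemma parseval (g : (V → Bool) → ℝ) :
    ∑ A : Finset V, coef g A ^ 2 = (∑ y, g y ^ 2) / 2 ^ Fintype.card V := by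
  have h : ∀ A : Finset V, coef g A ^ 2 = (∑ y, g y * (coef g A * chi A y)) / 2 ^ Fintype.card V := by
    intro A
    rw [sq]
    nth_rewrite 2 [coef]
    rw [mul_div_assoc', Finset.mul_sum]
    congr 1
    refine Finset.sum_congr rfl (fun y _ => ?_)
    ring
  simp only [h]
  rw [← Finset.sum_div, Finset.sum_comm]
  congr 1
  refine Finset.sum_congr rfl (fun y _ => ?_)
  rw [← Finset.mul_sum, ← inversion, sq]

lemma parseval_le (g : (V → Bool) → ℝ) (B : ℝ) (hB : ∀ y, g y ^ 2 ≤ B) :
    ∑ A : Finset V, coef g A ^ 2 ≤ B := by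
  rw [parseval, div_le_iff₀ two_pow_pos']
  calc ∑ y, g y ^ 2 ≤ ∑ _y : V → Bool, B := Finset.sum_le_sum (fun y _ => hB y)
    _ = B * 2 ^ Fintype.card V := by
        rw [Finset.sum_const, Finset.card_univ, Fintype.card_fun, Fintype.card_bool, nsmul_eq_mul]
        push_cast; ring

lemma lowDeg_coef {D : ℕ} {p : (V → Bool) → ℝ} (hp : p ∈ LowDeg V D) (S : Finset V)
    (hS : D < S.card) : coef p S = 0 := by
  induction hp using Submodule.span_induction with
  | mem f hf =>
    obtain ⟨T, hT, rfl⟩ := hf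
    rw [coef_chi, if_neg]
    rintro rfl
    omega
  | zero => exact coef_zero S
  | add a b _ _ ha hb => rw [coef_add, ha, hb, add_zero]
  | smul c a _ ha => rw [coef_smul, ha, mul_zero]

lemma coef_lowDeg {D : ℕ} {g : (V → Bool) → ℝ} (hg : ∀ S : Finset V, D < S.card → coef g S = 0) :
    g ∈ LowDeg V D := by
  have h : g = ∑ S : Finset V, coef g S • chi S := by
    funext y
    rw [Finset.sum_apply]
    simpa using inversion g y
  rw [h]
  refine Submodule.sum_mem _ (fun S _ => ?_)
  by_cases hS : S.card ≤ D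
  · exact Submodule.smul_mem _ _ (chi_mem S hS)
  · rw [hg S (by omega), zero_smul]
    exact Submodule.zero_mem _

/-- granularity of the top coefficients -/
lemma granular (g : (V → Bool) → ℝ) (hg : ∀ y, g y = 0 ∨ g y = 1) (A : Finset V)
    (htop : ∀ S : Finset V, A.card < S.card → coef g S = 0) :
    ∃ z : ℤ, coef g A * 2 ^ A.card = z := by
  -- the sum over the subcube of `A`
  have hchi : ∀ (S B : Finset V), chi S (fun v => decide (v ∈ B)) =
      ∏ v ∈ B, (if v ∈ S then (-1 : ℝ) else 1) := by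
    intro S B
    rw [chi_eq]
    have h1 : ∏ v ∈ S, sg (decide (v ∈ B)) = ∏ v ∈ S ∩ B, (-1 : ℝ) := by
      rw [← Finset.prod_ite_mem]
      refine Finset.prod_congr rfl (fun v _ => ?_)
      by_cases hv : v ∈ B <;> simp [hv, sg]
    rw [h1, Finset.inter_comm, ← Finset.prod_ite_mem]
  have h1 : ∑ B ∈ A.powerset, g (fun v => decide (v ∈ B)) * ∏ v ∈ B, (-1 : ℝ) =
      coef g A * 2 ^ A.card := by
    have h2 : ∀ B ∈ A.powerset, g (fun v => decide (v ∈ B)) * ∏ v ∈ B, (-1 : ℝ) =
        ∑ S : Finset V, coef g S * ∏ v ∈ B, (if v ∈ S then (1 : ℝ) else -1) := by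
      intro B _
      rw [inversion g, Finset.sum_mul]
      refine Finset.sum_congr rfl (fun S _ => ?_)
      rw [hchi, mul_assoc, ← Finset.prod_mul_distrib]
      congr 1
      refine Finset.prod_congr rfl (fun v _ => ?_)
      split_ifs <;> norm_num
    rw [Finset.sum_congr rfl h2, Finset.sum_comm]
    have h3 : ∀ S : Finset V, ∑ B ∈ A.powerset, coef g S *
        ∏ v ∈ B, (if v ∈ S then (1 : ℝ) else -1) =
        if S = A then coef g A * 2 ^ A.card else 0 := by
      intro S
      rw [← Finset.mul_sum, ← Finset.prod_one_add]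
      by_cases hSA : A ⊆ S
      · have h4 : ∏ v ∈ A, (1 + if v ∈ S then (1 : ℝ) else -1) = 2 ^ A.card := by
          rw [Finset.prod_congr rfl (fun v hv => by rw [if_pos (hSA hv)]), Finset.prod_const]
          norm_num
        rw [h4]
        by_cases h5 : S = A
        · rw [if_pos h5, h5]
        · rw [if_neg h5, htop S, zero_mul]
          exact Finset.card_lt_card (Finset.ssubset_iff_subset_ne.mpr ⟨hSA, fun h => h5 h.symm⟩)
      · obtain ⟨v, hvA, hvS⟩ := Finset.not_subset.mp hSA
        have h4 : ∏ v ∈ A, (1 + if v ∈ S then (1 : ℝ) else -1) = 0 := by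
          apply Finset.prod_eq_zero hvA
          simp [hvS]
        rw [h4, mul_zero, if_neg]
        rintro rfl
        exact hvS hvA
    rw [Finset.sum_congr rfl (fun S _ => h3 S), Finset.sum_ite_eq' univ A]
    simp
  rw [← h1]
  have h6 : ∀ B : Finset V, ∃ z : ℤ, g (fun v => decide (v ∈ B)) * ∏ v ∈ B, (-1 : ℝ) = z := by
    intro B
    rcases hg (fun v => decide (v ∈ B)) with h | h
    · exact ⟨0, by rw [h]; simp⟩
    · refine ⟨∏ v ∈ B, (-1 : ℤ), by rw [h]; push_cast; ring⟩
  choose z hz using h6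
  exact ⟨∑ B ∈ A.powerset, z B, by rw [Int.cast_sum]; exact Finset.sum_congr rfl (fun B _ => hz B)⟩

lemma granular_sq (g : (V → Bool) → ℝ) (hg : ∀ y, g y = 0 ∨ g y = 1) (A : Finset V)
    (htop : ∀ S : Finset V, A.card < S.card → coef g S = 0) (hA : coef g A ≠ 0) :
    1 ≤ 4 ^ A.card * coef g A ^ 2 := by
  obtain ⟨z, hz⟩ := granular g hg A htop
  have h1 : (4 : ℝ) ^ A.card * coef g A ^ 2 = (z : ℝ) ^ 2 := by
    rw [← hz, mul_pow, ← pow_mul, mul_comm A.card 2, pow_mul]
    norm_num
    ring
  have h2 : z ≠ 0 := by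
    rintro rfl
    simp at hz
    exact hA hz
  rw [h1]
  have h3 : 1 ≤ z ^ 2 := by
    have := Int.one_le_abs h2
    nlinarith [sq_abs z]
  exact_mod_cast h3

end Pool.Agent.Helper600R2.Sharp
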