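import Mathlib

/-!
Semantic refutations of systems of parity constraints whose lines are Boolean functions of
formulas.
-/

set_option linter.unusedSectionVars false

namespace Pool.Agent.Helper600R2.Sharp

open Finset

/-- Propositional formulas over `⊤, ⊥, ¬, ∧, ∨, →` with variables from `α`. -/
inductive Form (α : Type) : Type
  | tru : Form α
  | fls : Form α
  | var (a : α) : Form α
  | neg (φ : Form α) : Form α
  | and (φ ψ : Form α) : Form α
  | or (φ ψ : Form α) : Form α
  | imp (φ ψ : Form α) : Form α

/-- Truth value of a formula under an assignment. -/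
def Form.eval {α : Type} (x : α → Bool) : Form α → Bool
  | .tru => true
  | .fls => false
  | .var a => x a
  | .neg φ => !(φ.eval x)
  | .and φ ψ => φ.eval x && ψ.eval x
  | .or φ ψ => φ.eval x || ψ.eval x
  | .imp φ ψ => !(φ.eval x) || ψ.eval x

/-- Number of occurrences of variables in a formula. -/
def Form.leaves {α : Type} : Form α → ℕ
  | .tru => 0
  | .fls => 0
  | .var _ => 1
  | .neg φ => φ.leaves
  | .and φ ψ => φ.leaves + ψ.leaves
  | .or φ ψ => φ.leaves + ψ.leaves
  | .imp φ ψ => φ.leaves + ψ.leaves

/-- A line: a Boolean function `comb` of `r` formulas. -/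
structure Line (r : ℕ) (α : Type) where
  /-- the Boolean function -/
  comb : (Fin r → Bool) → Bool
  /-- the formulas -/
  part : Fin r → Form α

/-- Truth value of a line. -/
def Line.eval {r : ℕ} {α : Type} (x : α → Bool) (l : Line r α) : Bool :=
  l.comb (fun j => (l.part j).eval x)

/-- All formulas of the line have at most `s` occurrences of variables. -/
def Line.SizeLe {r : ℕ} {α : Type} (l : Line r α) (s : ℝ) : Prop :=
  ∀ j, ((l.part j).leaves : ℝ) ≤ s

/-- The parity constraint `⊕_{i ∈ S} x_i = b`. -/
def XorHolds {α : Type} (S : Finset α) (b : Bool) (x : α → Bool) : Prop :=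
  (S.filter (fun i => x i = true)).card % 2 = 1 ↔ b = true

/-- `l` is a refutation of the system of parity constraints `⊕_{i ∈ S v} x_i = b v`: some line is
identically false, and every line is implied by a single constraint of the system or by at most
`k` earlier lines. -/
def IsRefutation {α : Type} {n r : ℕ} (S : Fin n → Finset α) (b : Fin n → Bool) (k : ℕ) {T : ℕ}
    (l : Fin T → Line r α) : Prop :=
  (∃ i, ∀ x, (l i).eval x = false) ∧
  ∀ i, (∃ v, ∀ x, XorHolds (S v) (b v) x → (l i).eval x = true) ∨
    (∃ P : Finset (Fin T), P.card ≤ k ∧ (∀ j ∈ P, j < i) ∧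
      ∀ x, (∀ j ∈ P, (l j).eval x = true) → (l i).eval x = true)

end Pool.Agent.Helper600R2.Sharp
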