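import Pool.Agent.Helper600R2.Sharp.Cube
import Pool.Agent.H564R2.QF.Approx

/-!
# One surviving variable per block: formulas with `c d m²` leaves get degree `d`
-/

namespace Pool.Agent.Helper600R2.Sharp

open Pool.Agent.H564R2.QF Finset

section

variable {E : Type} {m : ℕ}

/-- restriction of an assignment -/
def rs (s : E → Fin m) (x : E × Fin m → Bool) (y : E → Bool) : E × Fin m → Bool :=
  fun v => if v.2 = s v.1 then y v.1 else x v

lemma size_lowDeg (φ : Fml (E × Fin m)) (s : E → Fin m) (x : E × Fin m → Bool) :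
    (fun y : E → Bool => if φ.eval (rs s x y) = true then (1 : ℝ) else 0) ∈
      LowDeg E φ.size := by
  induction φ with
  | const b =>
    cases b
    · have := LowDeg.const (V := E) 0 0
      simpa [Fml.eval, Fml.size] using this
    · have := LowDeg.const (V := E) 0 1
      simpa [Fml.eval, Fml.size] using this
  | var v =>
    by_cases hv : v.2 = s v.1
    · have := LowDeg.lit (V := E) v.1 true
      simpa [Fml.eval, Fml.size, rs, hv] using this
    · have := LowDeg.const (V := E) 1 (if x v = true then (1 : ℝ) else 0)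
      simpa [Fml.eval, Fml.size, rs, hv] using this
  | neg φ ih =>
    have h := Submodule.sub_mem _ (LowDeg.one φ.size) ih
    have h2 : (fun y : E → Bool => if (Fml.neg φ).eval (rs s x y) = true then (1 : ℝ) else 0) =
        (1 : (E → Bool) → ℝ) - fun y => if φ.eval (rs s x y) = true then (1 : ℝ) else 0 := by
      funext y
      simp only [Fml.eval, Pi.sub_apply, Pi.one_apply]
      by_cases h1 : φ.eval (rs s x y) = true <;> simp [h1]
    rw [h2]; exact h
  | and φ ψ ih ih' =>
    have h := LowDeg.mul ih ih'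
    have h2 : (fun y : E → Bool => if (Fml.and φ ψ).eval (rs s x y) = true then (1 : ℝ) else 0) =
        (fun y => if φ.eval (rs s x y) = true then (1 : ℝ) else 0) *
        fun y => if ψ.eval (rs s x y) = true then (1 : ℝ) else 0 := by
      funext y
      simp only [Fml.eval, Pi.mul_apply]
      by_cases h1 : φ.eval (rs s x y) = true <;> by_cases h3 : ψ.eval (rs s x y) = true <;>
        simp [h1, h3]
    rw [h2]; exact h
  | or φ ψ ih ih' =>
    have h := Submodule.sub_mem _ (LowDeg.one (φ.size + ψ.size))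
      (LowDeg.mul (Submodule.sub_mem _ (LowDeg.one φ.size) ih)
        (Submodule.sub_mem _ (LowDeg.one ψ.size) ih'))
    have h2 : (fun y : E → Bool => if (Fml.or φ ψ).eval (rs s x y) = true then (1 : ℝ) else 0) =
        (1 : (E → Bool) → ℝ) -
        ((1 : (E → Bool) → ℝ) - (fun y => if φ.eval (rs s x y) = true then (1 : ℝ) else 0)) *
        ((1 : (E → Bool) → ℝ) - fun y => if ψ.eval (rs s x y) = true then (1 : ℝ) else 0) := by
      funext y
      simp only [Fml.eval, Pi.mul_apply, Pi.sub_apply, Pi.one_apply]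
      by_cases h1 : φ.eval (rs s x y) = true <;> by_cases h3 : ψ.eval (rs s x y) = true <;>
        simp [h1, h3]
    rw [h2]; exact h

variable [Fintype E] [DecidableEq E]

/-- the surviving part of a set -/
def surv (s : E → Fin m) (S : Finset (E × Fin m)) : Finset E :=
  univ.filter (fun e => (e, s e) ∈ S)

/-- the fixed part of a set -/
def dead (s : E → Fin m) (S : Finset (E × Fin m)) : Finset (E × Fin m) :=
  S.filter (fun v => ¬ v.2 = s v.1)

lemma chi_rs (s : E → Fin m) (x : E × Fin m → Bool) (y : E → Bool) (S : Finset (E × Fin m)) :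
    chi S (rs s x y) = chi (surv s S) y * chi (dead s S) x := by
  rw [chi_eq, chi_eq, chi_eq, ← Finset.prod_filter_mul_prod_filter_not S (fun v => v.2 = s v.1)]
  congr 1
  · symm
    refine Finset.prod_bij (fun e _ => (e, s e)) ?_ ?_ ?_ ?_
    · intro e he
      simp only [surv, mem_filter, mem_univ, true_and] at he
      simp [he]
    · intro a _ b _ hab
      exact congrArg Prod.fst hab
    · rintro ⟨e, i⟩ he
      simp only [mem_filter] at he
      refine ⟨e, ?_, ?_⟩
      · simp only [surv, mem_filter, mem_univ, true_and]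
        rw [← he.2]; exact he.1
      · rw [← he.2]
    · intro e _
      simp [rs]
  · refine Finset.prod_congr rfl (fun v hv => ?_)
    have hv' : ¬ v.2 = s v.1 := (Finset.mem_filter.mp hv).2
    simp [rs, hv']

lemma surv_dead_inj (s : E → Fin m) {S T : Finset (E × Fin m)} (h1 : surv s S = surv s T)
    (h2 : dead s S = dead s T) : S = T := by
  ext v
  by_cases hv : v.2 = s v.1
  · have h3 : ∀ U : Finset (E × Fin m), v ∈ U ↔ v.1 ∈ surv s U := by
      intro U
      simp only [surv, mem_filter, mem_univ, true_and]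
      rw [← hv]
    exact (h3 S).trans (h1 ▸ (h3 T).symm)
  · have h3 : ∀ U : Finset (E × Fin m), v ∈ U ↔ v ∈ dead s U := by
      intro U
      simp [dead, hv]
    exact (h3 S).trans (h2 ▸ (h3 T).symm)

lemma coef_rs (p : (E × Fin m → Bool) → ℝ) (s : E → Fin m) (x : E × Fin m → Bool) (A : Finset E) :
    coef (fun y => p (rs s x y)) A =
      ∑ S ∈ univ.filter (fun S => surv s S = A), coef p S * chi (dead s S) x := by
  have h1 : ∀ y, p (rs s x y) * chi A y =
      ∑ S : Finset (E × Fin m), (coef p S * chi (dead s S) x) * (chi (surv s S) y * chi A y) := by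
    intro y
    rw [inversion p, Finset.sum_mul]
    refine Finset.sum_congr rfl (fun S _ => ?_)
    rw [chi_rs]; ring
  rw [coef]
  simp only [h1]
  rw [Finset.sum_comm, Finset.sum_div, Finset.sum_filter]
  refine Finset.sum_congr rfl (fun S _ => ?_)
  rw [← Finset.mul_sum, orth]
  split_ifs with h
  · rw [mul_div_assoc, div_self (by positivity), mul_one]
  · simp

lemma sum_x_sq {V U : Type} [Fintype V] [DecidableEq V] (F : Finset U) (a : U → ℝ)
    (g : U → Finset V) (hg : ∀ S ∈ F, ∀ T ∈ F, g S = g T → S = T) :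
    ∑ x : V → Bool, (∑ S ∈ F, a S * chi (g S) x) ^ 2 =
      2 ^ Fintype.card V * ∑ S ∈ F, a S ^ 2 := by
  classical
  have h1 : ∀ x : V → Bool, (∑ S ∈ F, a S * chi (g S) x) ^ 2 =
      ∑ S ∈ F, ∑ T ∈ F, (a S * a T) * (chi (g S) x * chi (g T) x) := by
    intro x
    rw [sq, Finset.sum_mul_sum]
    refine Finset.sum_congr rfl (fun S _ => Finset.sum_congr rfl (fun T _ => ?_))
    ring
  simp only [h1]
  rw [Finset.sum_comm, Finset.mul_sum]
  refine Finset.sum_congr rfl (fun S hS => ?_)
  rw [Finset.sum_comm]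
  have h2 : ∀ T ∈ F, ∑ x : V → Bool, a S * a T * (chi (g S) x * chi (g T) x) =
      if T = S then 2 ^ Fintype.card V * a S ^ 2 else 0 := by
    intro T hT
    rw [← Finset.mul_sum, orth]
    by_cases h : T = S
    · subst h; simp; ring
    · rw [if_neg h, if_neg (fun h' => h (hg S hS T hT h').symm), mul_zero]
  rw [Finset.sum_congr rfl h2, Finset.sum_ite_eq' F S, if_pos hS]

/-- weight at level `j` -/
noncomputable def W {V : Type} [Fintype V] [DecidableEq V] (j : ℕ) (g : (V → Bool) → ℝ) : ℝ :=
  ∑ A : Finset V, if A.card = j then coef g A ^ 2 else 0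

lemma W_nonneg {V : Type} [Fintype V] [DecidableEq V] (j : ℕ) (g : (V → Bool) → ℝ) :
    0 ≤ W j g := by
  refine Finset.sum_nonneg (fun A _ => ?_)
  split_ifs
  · positivity
  · exact le_refl _

lemma W_le {V : Type} [Fintype V] [DecidableEq V] (j : ℕ) (g : (V → Bool) → ℝ) (B : ℝ)
    (hB : ∀ y, g y ^ 2 ≤ B) : W j g ≤ B := by
  refine le_trans (Finset.sum_le_sum (fun A _ => ?_)) (parseval_le g B hB)
  split_ifs
  · exact le_refl _
  · positivity

lemma W_sub {V : Type} [Fintype V] [DecidableEq V] (j : ℕ) (f p : (V → Bool) → ℝ) :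
    W j f ≤ 2 * W j p + 2 * W j (f - p) := by
  simp only [W, Finset.mul_sum]
  rw [← Finset.sum_add_distrib]
  refine Finset.sum_le_sum (fun A _ => ?_)
  split_ifs
  · rw [coef_sub]
    nlinarith [sq_nonneg (coef p A - (coef f A - coef p A))]
  · simp

lemma sum_W_rs (p : (E × Fin m → Bool) → ℝ) (s : E → Fin m) (j : ℕ) :
    ∑ x : E × Fin m → Bool, W j (fun y => p (rs s x y)) =
      2 ^ Fintype.card (E × Fin m) *
        ∑ S : Finset (E × Fin m), if (surv s S).card = j then coef p S ^ 2 else 0 := by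
  simp only [W]
  rw [Finset.sum_comm]
  have h1 : ∀ A : Finset E, ∑ x : E × Fin m → Bool,
      (if A.card = j then coef (fun y => p (rs s x y)) A ^ 2 else 0) =
      ∑ S : Finset (E × Fin m), if surv s S = A then
        (if (surv s S).card = j then 2 ^ Fintype.card (E × Fin m) * coef p S ^ 2 else 0) else 0 := by
    intro A
    by_cases hA : A.card = j
    · simp only [if_pos hA, coef_rs]
      rw [sum_x_sq _ _ (fun S => dead s S), Finset.mul_sum, Finset.sum_filter]
      · refine Finset.sum_congr rfl (fun S _ => ?_)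
        by_cases hS : surv s S = A
        · rw [if_pos hS, if_pos hS, hS, if_pos hA]
        · rw [if_neg hS, if_neg hS]
      · intro S hS T hT h
        simp only [mem_filter, mem_univ, true_and] at hS hT
        exact surv_dead_inj s (hS.trans hT.symm) h
    · simp only [if_neg hA, Finset.sum_const_zero]
      symm
      apply Finset.sum_eq_zero
      intro S _
      by_cases hS : surv s S = A
      · rw [if_pos hS, hS, if_neg hA]
      · rw [if_neg hS]
  rw [Finset.sum_congr rfl (fun A _ => h1 A), Finset.sum_comm, Finset.mul_sum]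
  refine Finset.sum_congr rfl (fun S _ => ?_)
  rw [Finset.sum_ite_eq univ (surv s S), if_pos (mem_univ _)]
  split_ifs <;> simp

/-- few selections leave many variables of a small set -/
lemma count_surv (S : Finset (E × Fin m)) (j D : ℕ) (hm : 1 ≤ m) (hS : S.card ≤ D)
    (hD : 191 * D ≤ m * j) :
    ((univ.filter (fun s : E → Fin m => (surv s S).card = j)).card : ℝ) ≤
      m ^ Fintype.card E * (1 / 64) ^ j := by
  have hmr : (0 : ℝ) < m := by exact_mod_cast hm
  have h1 : ((univ.filter (fun s : E → Fin m => (surv s S).card = j)).card : ℝ) * 192 ^ j ≤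
      ∑ s : E → Fin m, (192 : ℝ) ^ (surv s S).card := by
    rw [← nsmul_eq_mul, ← Finset.sum_const]
    calc ∑ s ∈ univ.filter (fun s : E → Fin m => (surv s S).card = j), (192 : ℝ) ^ j
        = ∑ s ∈ univ.filter (fun s : E → Fin m => (surv s S).card = j),
            (192 : ℝ) ^ (surv s S).card := by
          refine Finset.sum_congr rfl (fun s hs => ?_)
          simp only [mem_filter, mem_univ, true_and] at hs
          rw [hs]
      _ ≤ _ := Finset.sum_le_sum_of_subset_of_nonneg (Finset.filter_subset _ _)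
          (fun s _ _ => by positivity)
  have h2 : ∀ s : E → Fin m, (192 : ℝ) ^ (surv s S).card =
      ∏ e, (if (e, s e) ∈ S then (192 : ℝ) else 1) := by
    intro s
    rw [surv, ← Finset.prod_const, Finset.prod_filter]
  have h3 : ∑ s : E → Fin m, (192 : ℝ) ^ (surv s S).card =
      ∏ e, ∑ i : Fin m, (if (e, i) ∈ S then (192 : ℝ) else 1) := by
    simp only [h2]
    have := Finset.prod_univ_sum (fun _ : E => (univ : Finset (Fin m)))
      (fun e i => if (e, i) ∈ S then (192 : ℝ) else 1)
    rw [Fintype.piFinset_univ] at this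
    exact this.symm
  have h4 : ∀ e, ∑ i : Fin m, (if (e, i) ∈ S then (192 : ℝ) else 1) ≤
      m * Real.exp (191 * (∑ i : Fin m, if (e, i) ∈ S then (1 : ℝ) else 0) / m) := by
    intro e
    have h5 : ∑ i : Fin m, (if (e, i) ∈ S then (192 : ℝ) else 1) =
        m + 191 * ∑ i : Fin m, (if (e, i) ∈ S then (1 : ℝ) else 0) := by
      have : ∀ i : Fin m, (if (e, i) ∈ S then (192 : ℝ) else 1) =
          1 + 191 * (if (e, i) ∈ S then (1 : ℝ) else 0) := by
        intro i; split_ifs <;> norm_num
      simp only [this]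
      rw [Finset.sum_add_distrib, ← Finset.mul_sum]
      simp
    rw [h5]
    have h6 := Real.add_one_le_exp (191 * (∑ i : Fin m, if (e, i) ∈ S then (1 : ℝ) else 0) / m)
    calc (m : ℝ) + 191 * ∑ i : Fin m, (if (e, i) ∈ S then (1 : ℝ) else 0)
        = m * (191 * (∑ i : Fin m, if (e, i) ∈ S then (1 : ℝ) else 0) / m + 1) := by
          field_simp; ring
      _ ≤ _ := mul_le_mul_of_nonneg_left h6 hmr.le
  have h7 : ∑ e : E, ∑ i : Fin m, (if (e, i) ∈ S then (1 : ℝ) else 0) = S.card := by
    rw [← Fintype.sum_prod_type' (f := fun e i => if (e, i) ∈ S then (1 : ℝ) else 0)]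
    rw [Finset.sum_ite_mem]
    simp
  have h8 : ∑ s : E → Fin m, (192 : ℝ) ^ (surv s S).card ≤
      m ^ Fintype.card E * 3 ^ j := by
    rw [h3]
    calc ∏ e, ∑ i : Fin m, (if (e, i) ∈ S then (192 : ℝ) else 1)
        ≤ ∏ e, (m * Real.exp (191 * (∑ i : Fin m, if (e, i) ∈ S then (1 : ℝ) else 0) / m)) := by
          refine Finset.prod_le_prod (fun e _ => ?_) (fun e _ => h4 e)
          exact Finset.sum_nonneg (fun i _ => by split_ifs <;> norm_num)
      _ = m ^ Fintype.card E * Real.exp (191 * S.card / m) := by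
          rw [Finset.prod_mul_distrib, Finset.prod_const, Finset.card_univ, ← Real.exp_sum,
            ← Finset.sum_div, ← Finset.mul_sum, h7]
      _ ≤ m ^ Fintype.card E * 3 ^ j := by
          apply mul_le_mul_of_nonneg_left _ (by positivity)
          have h9 : (191 * (S.card : ℝ) / m) ≤ j := by
            rw [div_le_iff₀ hmr]
            have h10 : 191 * S.card ≤ j * m := by
              calc 191 * S.card ≤ 191 * D := Nat.mul_le_mul_left _ hS
                _ ≤ m * j := hD
                _ = j * m := mul_comm _ _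
            exact_mod_cast h10
          calc Real.exp (191 * S.card / m) ≤ Real.exp j := Real.exp_le_exp.mpr h9
            _ = Real.exp 1 ^ j := by rw [← Real.exp_nat_mul, mul_one]
            _ ≤ 3 ^ j := by
                apply pow_le_pow_left₀ (Real.exp_pos 1).le
                linarith [Real.exp_one_lt_d9]
  have h11 : ((univ.filter (fun s : E → Fin m => (surv s S).card = j)).card : ℝ) * 192 ^ j ≤
      m ^ Fintype.card E * (1 / 64) ^ j * 192 ^ j := by
    refine (h1.trans h8).trans (le_of_eq ?_)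
    rw [mul_assoc, ← mul_pow]; norm_num
  exact le_of_mul_le_mul_right h11 (by positivity)

lemma total_weight (f p : (E × Fin m → Bool) → ℝ) (j D : ℕ) (hj : 1 ≤ j) (hm : 1 ≤ m)
    (hf : ∀ z, f z = 0 ∨ f z = 1) (hp : p ∈ LowDeg (E × Fin m) D)
    (hpf : ∀ z, |p z - f z| ≤ (1 / 4) ^ j) (hD : 191 * D ≤ m * j) :
    ∑ s : E → Fin m, ∑ x : E × Fin m → Bool, 4 ^ j * W j (fun y => f (rs s x y)) ≤
      (m ^ Fintype.card E * 2 ^ Fintype.card (E × Fin m)) * (3 * (1 / 4) ^ j) := by
  have hpow : ((1 : ℝ) / 4) ^ j ≤ 1 / 4 := by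
    calc ((1 : ℝ) / 4) ^ j ≤ (1 / 4) ^ 1 := pow_le_pow_of_le_one (by norm_num) (by norm_num) hj
      _ = 1 / 4 := by norm_num
  have hp2 : ∀ z, p z ^ 2 ≤ 2 := by
    intro z
    have h1 := abs_le.mp (hpf z)
    rcases hf z with h | h <;> rw [h] at h1 <;> nlinarith
  have hsum2 : ∑ S : Finset (E × Fin m), coef p S ^ 2 ≤ 2 := parseval_le p 2 hp2
  -- the polynomial
  have hP : ∑ s : E → Fin m, ∑ x : E × Fin m → Bool, W j (fun y => p (rs s x y)) ≤
      (m ^ Fintype.card E * 2 ^ Fintype.card (E × Fin m)) * (2 * (1 / 64) ^ j) := by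
    simp only [sum_W_rs]
    rw [← Finset.mul_sum, Finset.sum_comm]
    have h1 : ∀ S : Finset (E × Fin m), ∑ s : E → Fin m,
        (if (surv s S).card = j then coef p S ^ 2 else 0) ≤
        m ^ Fintype.card E * (1 / 64) ^ j * coef p S ^ 2 := by
      intro S
      rw [← Finset.sum_filter, Finset.sum_const, nsmul_eq_mul]
      by_cases hS : S.card ≤ D
      · exact mul_le_mul_of_nonneg_right (count_surv S j D hm hS hD) (by positivity)
      · rw [lowDeg_coef hp S (by omega)]; simp
    have h2 : ∑ S : Finset (E × Fin m), ∑ s : E → Fin m,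
        (if (surv s S).card = j then coef p S ^ 2 else 0) ≤
        m ^ Fintype.card E * (1 / 64) ^ j * 2 := by
      refine (Finset.sum_le_sum (fun S _ => h1 S)).trans ?_
      rw [← Finset.mul_sum]
      exact mul_le_mul_of_nonneg_left hsum2 (by positivity)
    refine (mul_le_mul_of_nonneg_left h2 (by positivity)).trans (le_of_eq ?_)
    ring
  -- the error
  have hE : ∀ s : E → Fin m, ∀ x : E × Fin m → Bool,
      W j ((fun y => f (rs s x y)) - fun y => p (rs s x y)) ≤ (1 / 16) ^ j := by
    intro s x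
    apply W_le
    intro y
    simp only [Pi.sub_apply]
    have h1 := hpf (rs s x y)
    calc (f (rs s x y) - p (rs s x y)) ^ 2 = |p (rs s x y) - f (rs s x y)| ^ 2 := by
          rw [sq_abs]; ring
      _ ≤ ((1 / 4) ^ j) ^ 2 := pow_le_pow_left₀ (abs_nonneg _) h1 2
      _ = (1 / 16) ^ j := by rw [← pow_mul, mul_comm j 2, pow_mul]; norm_num
  have hcard : ∑ _s : E → Fin m, ∑ _x : E × Fin m → Bool, (1 : ℝ) =
      m ^ Fintype.card E * 2 ^ Fintype.card (E × Fin m) := by
    simp
  calc ∑ s : E → Fin m, ∑ x : E × Fin m → Bool, 4 ^ j * W j (fun y => f (rs s x y))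
      ≤ ∑ s : E → Fin m, ∑ x : E × Fin m → Bool,
          (4 ^ j * 2 * W j (fun y => p (rs s x y)) + 4 ^ j * 2 * (1 / 16) ^ j * 1) := by
        refine Finset.sum_le_sum (fun s _ => Finset.sum_le_sum (fun x _ => ?_))
        have h1 := W_sub j (fun y => f (rs s x y)) (fun y => p (rs s x y))
        have h2 := hE s x
        have h3 : (0 : ℝ) < 4 ^ j := by positivity
        nlinarith
    _ = 4 ^ j * 2 * (∑ s : E → Fin m, ∑ x : E × Fin m → Bool, W j (fun y => p (rs s x y))) +
          4 ^ j * 2 * (1 / 16) ^ j * (m ^ Fintype.card E * 2 ^ Fintype.card (E × Fin m)) := by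
        rw [← hcard]
        simp only [Finset.sum_add_distrib, ← Finset.mul_sum]
    _ ≤ 4 ^ j * 2 * ((m ^ Fintype.card E * 2 ^ Fintype.card (E × Fin m)) * (2 * (1 / 64) ^ j)) +
          4 ^ j * 2 * (1 / 16) ^ j * (m ^ Fintype.card E * 2 ^ Fintype.card (E × Fin m)) := by
        gcongr
    _ = (m ^ Fintype.card E * 2 ^ Fintype.card (E × Fin m)) *
          (4 * ((1 / 4) ^ j * (1 / 4) ^ j) + 2 * (1 / 4) ^ j) := by
        have h1 : (4 : ℝ) ^ j * (1 / 64) ^ j = (1 / 4) ^ j * (1 / 4) ^ j := by
          rw [← mul_pow, ← mul_pow]; norm_num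
        have h2 : (4 : ℝ) ^ j * (1 / 16) ^ j = (1 / 4) ^ j := by
          rw [← mul_pow]; norm_num
        linear_combination (4 * (m ^ Fintype.card E * 2 ^ Fintype.card (E × Fin m)) : ℝ) * h1 +
          (2 * (m ^ Fintype.card E * 2 ^ Fintype.card (E × Fin m)) : ℝ) * h2
    _ ≤ _ := by
        apply mul_le_mul_of_nonneg_left _ (by positivity)
        have h0 : (0 : ℝ) < (1 / 4) ^ j := by positivity
        nlinarith

lemma geom (d n : ℕ) : ∑ j ∈ Finset.Ioc d n, (3 * (1 / 4 : ℝ) ^ j) ≤ (1 / 4) ^ d := by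
  rcases Nat.lt_or_ge n d with h | h
  · rw [Finset.Ioc_eq_empty (by omega), Finset.sum_empty]; positivity
  · have h1 : ∑ j ∈ Finset.Ioc d n, (3 * (1 / 4 : ℝ) ^ j) = (1 / 4) ^ d - (1 / 4) ^ n := by
      induction n, h using Nat.le_induction with
      | base => simp
      | succ n hn ih =>
        rw [← Finset.insert_Ioc_right_eq_Ioc_add_one hn, Finset.sum_insert (by simp), ih]
        rw [pow_succ]; ring
    rw [h1]
    have : (0 : ℝ) ≤ (1 / 4) ^ n := by positivity
    linarith

lemma bad_le (g : (E → Bool) → ℝ) (hg : ∀ y, g y = 0 ∨ g y = 1) (d : ℕ)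
    (hbad : g ∉ LowDeg E d) : 1 ≤ ∑ j ∈ Finset.Ioc d (Fintype.card E), 4 ^ j * W j g := by
  classical
  -- the largest nonzero coefficient
  have h1 : ∃ S : Finset E, d < S.card ∧ coef g S ≠ 0 := by
    by_contra h
    push Not at h
    exact hbad (coef_lowDeg h)
  obtain ⟨S₀, hS₀, hc₀⟩ := h1
  obtain ⟨S, hS, hmax⟩ := Finset.exists_max_image
    (univ.filter (fun S : Finset E => coef g S ≠ 0)) Finset.card ⟨S₀, by simp [hc₀]⟩
  simp only [mem_filter, mem_univ, true_and] at hS hmax
  have hSd : d < S.card := hS₀.trans_le (hmax S₀ hc₀)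
  have htop : ∀ T : Finset E, S.card < T.card → coef g T = 0 := by
    intro T hT
    by_contra h
    exact absurd (hmax T h) (by omega)
  have h2 := granular_sq g hg S htop hS
  have h3 : coef g S ^ 2 ≤ W S.card g := by
    rw [W]
    have := Finset.single_le_sum (f := fun A : Finset E => if A.card = S.card then coef g A ^ 2
      else 0) (s := univ) (fun A _ => by split_ifs <;> positivity) (mem_univ S)
    simpa using this
  have h4 : (4 : ℝ) ^ S.card * W S.card g ≤
      ∑ j ∈ Finset.Ioc d (Fintype.card E), 4 ^ j * W j g := by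
    refine Finset.single_le_sum (f := fun j => (4 : ℝ) ^ j * W j g)
      (fun j _ => mul_nonneg (by positivity) (W_nonneg j g)) ?_
    rw [Finset.mem_Ioc]
    exact ⟨hSd, Finset.card_le_univ S⟩
  calc (1 : ℝ) ≤ 4 ^ S.card * coef g S ^ 2 := h2
    _ ≤ 4 ^ S.card * W S.card g := mul_le_mul_of_nonneg_left h3 (by positivity)
    _ ≤ _ := h4

end

theorem restr : ∃ c : ℝ, 0 < c ∧ ∀ (E : Type) [Fintype E] [DecidableEq E] (m d M : ℕ)
    (φ : Fin M → Fml (E × Fin m)), 1 ≤ m → 1 ≤ d → (∀ i, ((φ i).size : ℝ) ≤ c * d * m ^ 2) →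
    (M : ℝ) < 2 ^ d → ∃ (s : E → Fin m) (x : E × Fin m → Bool), ∀ i,
      (fun y : E → Bool => if (φ i).eval (fun v => if v.2 = s v.1 then y v.1 else x v) = true
        then (1 : ℝ) else 0) ∈ LowDeg E d := by
  classical
  refine ⟨1 / 5000000 ^ 2, by positivity, ?_⟩
  intro E _ _ m d M φ hm hd hsize hM
  by_cases hm5 : m < 5000000
  · -- every formula has fewer than `d` leaves
    refine ⟨fun _ => ⟨0, by omega⟩, fun _ => false, fun i => ?_⟩
    have h1 : (φ i).size ≤ d := by
      have h2 : ((φ i).size : ℝ) ≤ d := by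
        refine (hsize i).trans ?_
        have h3 : (m : ℝ) ^ 2 ≤ 5000000 ^ 2 := by
          apply pow_le_pow_left₀ (by positivity)
          exact_mod_cast hm5.le
        have h4 : (0 : ℝ) ≤ d := by positivity
        nlinarith
      exact_mod_cast h2
    exact LowDeg.mono h1 (size_lowDeg (φ i) (fun _ => ⟨0, by omega⟩) (fun _ => false))
  · push Not at hm5
    set T : ℕ := m / 2440980 with hT
    have hT1 : 1 ≤ T := by
      rw [hT, Nat.le_div_iff_mul_le (by norm_num)]; omega
    have hTm : 2440980 * T ≤ m := Nat.mul_div_le m 2440980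
    have hTm2 : m ≤ 5000000 * T := by
      have : m < 2440980 * (T + 1) := Nat.lt_mul_div_succ m (by norm_num)
      omega
    -- approximation of the formulas at every level
    have happ : ∀ i : Fin M, ∀ j : ℕ, d < j → ∃ P ∈ LowDeg (E × Fin m) (12780 * j * T), ∀ z,
        |P z - (if (φ i).eval z = true then 1 else 0)| ≤ (1 / 4) ^ j := by
      intro i j hj
      apply formula_approx (φ i) j T (by omega) hT1
      have h2 : ((φ i).size : ℝ) ≤ (j * T ^ 2 : ℕ) := by
        refine (hsize i).trans ?_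
        have h3 : (m : ℝ) ≤ 5000000 * T := by exact_mod_cast hTm2
        have h4 : (m : ℝ) ^ 2 ≤ (5000000 * T) ^ 2 := pow_le_pow_left₀ (by positivity) h3 2
        have h5 : (d : ℝ) ≤ j := by exact_mod_cast hj.le
        push_cast
        calc (1 : ℝ) / 5000000 ^ 2 * d * m ^ 2 ≤ 1 / 5000000 ^ 2 * d * (5000000 * T) ^ 2 :=
              mul_le_mul_of_nonneg_left h4 (by positivity)
          _ = d * T ^ 2 := by ring
          _ ≤ j * T ^ 2 := mul_le_mul_of_nonneg_right h5 (by positivity)
      exact_mod_cast h2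
    by_contra hcon
    push Not at hcon
    set N : ℝ := m ^ Fintype.card E * 2 ^ Fintype.card (E × Fin m) with hN
    have hNpos : 0 < N := by positivity
    have hcard : ∑ _s : E → Fin m, ∑ _x : E × Fin m → Bool, (1 : ℝ) = N := by
      simp [hN]
    let F : Fin M → (E × Fin m → Bool) → ℝ := fun i z => if (φ i).eval z = true then 1 else 0
    have hF : ∀ i z, F i z = 0 ∨ F i z = 1 := by
      intro i z
      simp only [F]
      split_ifs <;> simp
    have h1 : ∑ _s : E → Fin m, ∑ _x : E × Fin m → Bool, (1 : ℝ) ≤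
        ∑ s : E → Fin m, ∑ x : E × Fin m → Bool, ∑ i : Fin M,
          ∑ j ∈ Finset.Ioc d (Fintype.card E), 4 ^ j * W j (fun y => F i (rs s x y)) := by
      refine Finset.sum_le_sum (fun s _ => Finset.sum_le_sum (fun x _ => ?_))
      obtain ⟨i, hi⟩ := hcon s x
      have h2 := bad_le (fun y => F i (rs s x y)) (fun y => hF i _) d hi
      refine h2.trans ?_
      exact Finset.single_le_sum (f := fun i => ∑ j ∈ Finset.Ioc d (Fintype.card E),
        (4 : ℝ) ^ j * W j (fun y => F i (rs s x y)))
        (fun i _ => Finset.sum_nonneg (fun j _ => mul_nonneg (by positivity) (W_nonneg j _)))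
        (mem_univ i)
    have h3 : ∑ s : E → Fin m, ∑ x : E × Fin m → Bool, ∑ i : Fin M,
          ∑ j ∈ Finset.Ioc d (Fintype.card E), 4 ^ j * W j (fun y => F i (rs s x y)) =
        ∑ i : Fin M, ∑ j ∈ Finset.Ioc d (Fintype.card E), ∑ s : E → Fin m,
          ∑ x : E × Fin m → Bool, 4 ^ j * W j (fun y => F i (rs s x y)) := by
      have h4 : ∀ s : E → Fin m, ∑ x : E × Fin m → Bool, ∑ i : Fin M,
          ∑ j ∈ Finset.Ioc d (Fintype.card E), 4 ^ j * W j (fun y => F i (rs s x y)) =
          ∑ i : Fin M, ∑ j ∈ Finset.Ioc d (Fintype.card E), ∑ x : E × Fin m → Bool,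
            4 ^ j * W j (fun y => F i (rs s x y)) := by
        intro s
        rw [Finset.sum_comm]
        refine Finset.sum_congr rfl (fun i _ => ?_)
        rw [Finset.sum_comm]
      simp only [h4]
      rw [Finset.sum_comm]
      refine Finset.sum_congr rfl (fun i _ => ?_)
      rw [Finset.sum_comm]
    have h5 : ∀ i : Fin M, ∑ j ∈ Finset.Ioc d (Fintype.card E), ∑ s : E → Fin m,
          ∑ x : E × Fin m → Bool, 4 ^ j * W j (fun y => F i (rs s x y)) ≤ N * (1 / 4) ^ d := by
      intro i
      calc ∑ j ∈ Finset.Ioc d (Fintype.card E), ∑ s : E → Fin m,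
          ∑ x : E × Fin m → Bool, 4 ^ j * W j (fun y => F i (rs s x y))
          ≤ ∑ j ∈ Finset.Ioc d (Fintype.card E), N * (3 * (1 / 4) ^ j) := by
            refine Finset.sum_le_sum (fun j hj => ?_)
            rw [Finset.mem_Ioc] at hj
            obtain ⟨P, hP, hPf⟩ := happ i j hj.1
            exact total_weight (F i) P j (12780 * j * T) (by omega) hm (hF i) hP hPf (by
              calc 191 * (12780 * j * T) = (2440980 * T) * j := by ring
                _ ≤ m * j := Nat.mul_le_mul_right _ hTm)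
        _ = N * ∑ j ∈ Finset.Ioc d (Fintype.card E), (3 * (1 / 4 : ℝ) ^ j) := by
            rw [Finset.mul_sum]
        _ ≤ N * (1 / 4) ^ d := mul_le_mul_of_nonneg_left (geom d _) hNpos.le
    have h6 : N ≤ M * (N * (1 / 4) ^ d) := by
      calc N = ∑ _s : E → Fin m, ∑ _x : E × Fin m → Bool, (1 : ℝ) := hcard.symm
        _ ≤ _ := h1
        _ = _ := h3
        _ ≤ ∑ _i : Fin M, N * (1 / 4) ^ d := Finset.sum_le_sum (fun i _ => h5 i)
        _ = M * (N * (1 / 4) ^ d) := by simp
    have h7 : (1 : ℝ) ≤ M * (1 / 4) ^ d := by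
      have : N * 1 ≤ N * (M * (1 / 4) ^ d) := by linarith
      exact le_of_mul_le_mul_left this hNpos
    have h8 : (M : ℝ) * (1 / 4) ^ d < 1 := by
      calc (M : ℝ) * (1 / 4) ^ d < 2 ^ d * (1 / 4) ^ d := by
            apply mul_lt_mul_of_pos_right hM (by positivity)
        _ = (1 / 2) ^ d := by rw [← mul_pow]; norm_num
        _ ≤ 1 := pow_le_one₀ (by norm_num) (by norm_num)
    linarith

end Pool.Agent.Helper600R2.Sharp
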